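import Pool.Agent.H92.EZ.Targets
import Pool.Agent.H54.LS.Sph

/-! V3 of `ez_modules`: volume of the intersection of a centred shell with a slab. -/

set_option autoImplicit false

namespace Pool.Agent.H97.EZ

open MeasureTheory Set FourierTransform
open scoped ENNReal NNReal RealInnerProductSpace
open Pool.Agent.H83.LS Pool.Agent.H54.LS
open Pool.Agent.H92.EZ

/-- the set in question -/
def SS (q μ c ν : ℝ) (β : EE 3) : Set (EE 3) :=
  {x : EE 3 | |‖x‖ ^ 2 - q| ≤ μ ∧ |⟪x, β⟫ + c| ≤ ν}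

theorem SS_closed (q μ c ν : ℝ) (β : EE 3) : IsClosed (SS q μ c ν β) := by
  have h1 : IsClosed {x : EE 3 | |‖x‖ ^ 2 - q| ≤ μ} :=
    isClosed_le (by fun_prop) continuous_const
  have h2 : IsClosed {x : EE 3 | |⟪x, β⟫ + c| ≤ ν} :=
    isClosed_le (by fun_prop) continuous_const
  exact h1.inter h2

/-- the interval -/
theorem vol_int (B c ν : ℝ) (hB : 0 < B) :
    volume {u : ℝ | |B * u + c| ≤ ν} ≤ ENNReal.ofReal (2 * ν / B) := by
  have h1 : {u : ℝ | |B * u + c| ≤ ν} ⊆ Icc ((-ν - c) / B) ((ν - c) / B) := by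
    intro u hu
    have hu' := abs_le.mp (Set.mem_setOf_eq ▸ hu)
    constructor
    · rw [div_le_iff₀ hB]
      nlinarith [hu'.1]
    · rw [le_div_iff₀ hB]
      nlinarith [hu'.2]
  calc volume {u : ℝ | |B * u + c| ≤ ν} ≤ volume (Icc ((-ν - c) / B) ((ν - c) / B)) :=
        measure_mono h1
    _ = ENNReal.ofReal ((ν - c) / B - (-ν - c) / B) := Real.volume_Icc
    _ = ENNReal.ofReal (2 * ν / B) := by
        congr 1
        ring

/-- the case of the last axis -/
theorem axis (V1 : T_V1) (q μ c ν B : ℝ) (hB : 0 < B) (hμ : 0 ≤ μ) (hν : 0 ≤ ν) :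
    volume (SS q μ c ν (B • jo (n := 2) 0 1)) ≤ ENNReal.ofReal (4 * Real.pi * μ * ν / B) := by
  set S := SS q μ c ν (B • jo (n := 2) 0 1) with hS
  have hm : MeasurableSet S := (SS_closed _ _ _ _ _).measurableSet
  have hmp := mp_jo 2
  rw [← hmp.measure_preimage hm.nullMeasurableSet]
  rw [Measure.prod_apply_symm (hmp.measurable hm)]
  have key : ∀ u : ℝ, volume ((fun x : EE 2 => (x, u)) ⁻¹'
      ((fun q : EE 2 × ℝ => jo q.1 q.2) ⁻¹' S)) ≤
      {u : ℝ | |B * u + c| ≤ ν}.indicator (fun _ => ENNReal.ofReal (2 * Real.pi * μ)) u := by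
    intro u
    by_cases hu : |B * u + c| ≤ ν
    · rw [Set.indicator_of_mem (by exact hu)]
      have h1 : ((fun x : EE 2 => (x, u)) ⁻¹' ((fun q : EE 2 × ℝ => jo q.1 q.2) ⁻¹' S)) ⊆
          {y : EE 2 | |1 * ‖y‖ ^ 2 + ⟪y, (0 : EE 2)⟫ + (u ^ 2 - q)| ≤ μ} := by
        intro y hy
        have hy1 : |‖jo y u‖ ^ 2 - q| ≤ μ := hy.1
        rw [jo_norm_sq] at hy1
        simp only [Set.mem_setOf_eq, inner_zero_right]
        have e : 1 * ‖y‖ ^ 2 + 0 + (u ^ 2 - q) = ‖y‖ ^ 2 + u ^ 2 - q := by ring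
        rw [e]
        exact hy1
      calc _ ≤ volume {y : EE 2 | |1 * ‖y‖ ^ 2 + ⟪y, (0 : EE 2)⟫ + (u ^ 2 - q)| ≤ μ} :=
            measure_mono h1
        _ ≤ ENNReal.ofReal (2 * Real.pi * μ / |1|) := V1 1 (u ^ 2 - q) μ 0 one_ne_zero hμ
        _ = ENNReal.ofReal (2 * Real.pi * μ) := by rw [abs_one, div_one]
    · have h1 : ((fun x : EE 2 => (x, u)) ⁻¹' ((fun q : EE 2 × ℝ => jo q.1 q.2) ⁻¹' S)) = ∅ := by
        apply Set.eq_empty_of_forall_notMem
        intro y hy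
        apply hu
        have hy2 : |⟪jo y u, B • jo (n := 2) 0 1⟫ + c| ≤ ν := hy.2
        rw [inner_smul_right, jo_inner, inner_zero_right] at hy2
        have e : B * (0 + u * 1) + c = B * u + c := by ring
        rw [e] at hy2
        exact hy2
      rw [h1, measure_empty]
      exact zero_le
  calc ∫⁻ u : ℝ, volume ((fun x : EE 2 => (x, u)) ⁻¹'
        ((fun q : EE 2 × ℝ => jo q.1 q.2) ⁻¹' S))
      ≤ ∫⁻ u : ℝ, {u : ℝ | |B * u + c| ≤ ν}.indicator
          (fun _ => ENNReal.ofReal (2 * Real.pi * μ)) u := lintegral_mono key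
    _ = ENNReal.ofReal (2 * Real.pi * μ) * volume {u : ℝ | |B * u + c| ≤ ν} := by
        rw [lintegral_indicator_const]
        exact (isClosed_le (by fun_prop) continuous_const).measurableSet
    _ ≤ ENNReal.ofReal (2 * Real.pi * μ) * ENNReal.ofReal (2 * ν / B) :=
        mul_le_mul_right (vol_int B c ν hB) _
    _ = ENNReal.ofReal (4 * Real.pi * μ * ν / B) := by
        rw [← ENNReal.ofReal_mul (by positivity)]
        congr 1
        ring

/-- V3 -/
theorem pf_V3 (V1 : T_V1) : T_V3 := by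
  intro q μ c ν β hβ hμ hν
  have hB : 0 < ‖β‖ := norm_pos_iff.mpr hβ
  have he : ‖jo (n := 2) 0 1‖ = 1 := by
    have h := jo_norm_sq (0 : EE 2) 1
    rw [norm_zero] at h
    have h0 := norm_nonneg (jo (0 : EE 2) 1)
    nlinarith
  set w : EE 3 := ‖β‖ • jo (n := 2) 0 1 with hw
  have hnw : ‖β‖ = ‖w‖ := by
    rw [hw, norm_smul, he, norm_norm, mul_one]
  set T : EE 3 ≃ₗᵢ[ℝ] EE 3 := (ℝ ∙ (β - w))ᗮ.reflection with hT
  have hTβ : T β = w := Submodule.reflection_sub hnw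
  have hpre : SS q μ c ν β = T ⁻¹' (SS q μ c ν w) := by
    ext x
    simp only [SS, Set.mem_setOf_eq, Set.mem_preimage]
    rw [T.norm_map, ← hTβ, T.inner_map_map]
  have hmT : MeasurePreserving T volume volume := T.measurePreserving
  show volume (SS q μ c ν β) ≤ _
  rw [hpre, hmT.measure_preimage (SS_closed _ _ _ _ _).measurableSet.nullMeasurableSet]
  exact axis V1 q μ c ν ‖β‖ hB hμ hν

end Pool.Agent.H97.EZ
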